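import Pool.Agent.Q121.TS.Cover

/-! # Sums of boundedly many twisted large subsets cover all matrices -/

set_option autoImplicit false

open Matrix

namespace Pool.Agent.Results.MP_725651_al.TwistedSums

/-- The set `a X b = {a x b : x ∈ X}`. -/
def twist {F : Type} [Field F] {n : ℕ} (a b : GL (Fin n) F) (X : Set (Matrix (Fin n) (Fin n) F)) :
    Set (Matrix (Fin n) (Fin n) F) :=
  {y | ∃ x ∈ X, y = (a : Matrix (Fin n) (Fin n) F) * x * (b : Matrix (Fin n) (Fin n) F)}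

/-- The sumset `Y_1 + ... + Y_m`. -/
def sumset {F : Type} [Field F] {n m : ℕ} (Y : Fin m → Set (Matrix (Fin n) (Fin n) F)) :
    Set (Matrix (Fin n) (Fin n) F) :=
  {z | ∃ y : Fin m → Matrix (Fin n) (Fin n) F, (∀ i, y i ∈ Y i) ∧ z = ∑ i, y i}

/-- For every real `c > 0` there is `μ` such that for every finite field `F`, every `n ≥ 1` and all
subsets `X_1, ..., X_μ` of `M_n(F)` with at least `|F| ^ (c n²)` elements each there are invertible
`a_i, b_i` with `a_1 X_1 b_1 + ... + a_μ X_μ b_μ = M_n(F)`. -/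
theorem result :
    ∀ c : ℝ, 0 < c → ∃ μ : ℕ, ∀ (F : Type) [Field F] [Fintype F] (n : ℕ), 1 ≤ n →
      ∀ X : Fin μ → Set (Matrix (Fin n) (Fin n) F),
        (∀ i, (Fintype.card F : ℝ) ^ (c * (n : ℝ) ^ 2) ≤ ((X i).ncard : ℝ)) →
        ∃ a b : Fin μ → GL (Fin n) F,
          sumset (fun i => twist (a i) (b i) (X i)) = Set.univ := by
  classical
  intro c hc
  obtain ⟨μ, hμ⟩ := Pool.Q121.TS.cover hc
  refine ⟨μ, ?_⟩
  intro F _ _ n hn X hX
  obtain ⟨a, b, hab⟩ := hμ F n hn (fun i => (X i).toFinset) (by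
    intro i
    have h := hX i
    rw [Set.ncard_eq_toFinset_card'] at h
    exact h)
  refine ⟨a, b, ?_⟩
  rw [Set.eq_univ_iff_forall]
  intro z
  have hz : z ∈ Pool.Q121.TS.Z (fun i => (X i).toFinset) a b := by
    rw [hab]
    exact Finset.mem_univ _
  rw [Pool.Q121.TS.mem_Z] at hz
  obtain ⟨x, hx, hxz⟩ := hz
  refine ⟨fun i => (a i : Matrix (Fin n) (Fin n) F) * x i * (b i : Matrix (Fin n) (Fin n) F),
    fun i => ⟨x i, Set.mem_toFinset.1 (hx i), rfl⟩, hxz.symm⟩

end Pool.Agent.Results.MP_725651_al.TwistedSums
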